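import Pool.Agent.L0h11.FP.Stm

/-!
# Project FP (helper11), module DEF
-/

set_option autoImplicit false

namespace Pool.Agent.L0h55.FP

open Polynomial Finset Pool.Agent.L0h11.FP

theorem taylor_fac {R : Type} [CommRing R] (c : R) (n : ℕ) (q : R[X]) :
    taylor c ((X - C c) ^ n * q) = X ^ n * taylor c q := by
  rw [taylor_mul, taylor_pow, map_sub, taylor_X, taylor_C, add_sub_cancel_right]

theorem coeff_fac {R : Type} [CommRing R] (c : R) (n : ℕ) (q : R[X]) :
    (taylor c ((X - C c) ^ n * q)).coeff n = q.eval c := by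
  rw [taylor_fac, coeff_X_pow_mul', if_pos le_rfl, Nat.sub_self, taylor_coeff_zero]

theorem coeff_fac_lt {R : Type} [CommRing R] (c : R) {n j : ℕ} (hj : j < n) (q : R[X]) :
    (taylor c ((X - C c) ^ n * q)).coeff j = 0 := by
  rw [taylor_fac, coeff_X_pow_mul', if_neg (by omega)]

/-- the factor `(y - x ^ e) ^ n` -/
theorem fac (hSPR : St_SPR) (hRES : St_RES) (hSUP : St_SUP) (hCRD : St_CRD) {k : Type} [Field k]
    [CharZero k] {e r m D : ℕ} (he : 1 ≤ e) {f : k[X][X]} (hf : f ∈ V k D) (n : ℕ)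
    (ha : ∀ i < n, aa e (D - i * e) ≤ r * (m - i))
    (hd : ∀ j < n, (X - C 1) ^ (r * (m - j)) ∣ (taylor (X ^ e) f).coeff j) :
    ∃ q ∈ V k (D - n * e), f = (X - C (X ^ e)) ^ n * q := by
  induction n with
  | zero => exact ⟨f, by simpa using hf, by simp⟩
  | succ n ih =>
    obtain ⟨q, hq, hfq⟩ := ih (fun i hi => ha i (by omega)) (fun j hj => hd j (by omega))
    have h1 := hd n (by omega)
    rw [hfq, coeff_fac] at h1
    have h2 : (q.eval (X ^ e)).support.card ≤ r * (m - n) :=
      (card_le_card (hSUP k e _ he q hq)).trans ((hCRD.1 e _).trans (ha n (by omega)))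
    have h3 := hSPR k _ _ h1 h2
    obtain ⟨q', hq', hqq⟩ := hRES k e _ he q hq h3
    refine ⟨q', ?_, ?_⟩
    · rw [Nat.succ_mul, ← Nat.sub_sub]
      exact hq'
    · rw [hfq, hqq, pow_succ]
      ring

/-- **SPC** -/
theorem t_SPC : St_SPR → St_RES → St_SUP → St_CRD → St_SPC := by
  intro hSPR hRES hSUP hCRD k _ _ e r m D he ha f hf hd
  exact fac hSPR hRES hSUP hCRD he hf m ha hd

theorem aa_small {e D : ℕ} (h : D ≤ e) : aa e D = aa D D := by
  unfold aa
  symm
  apply sum_subset (range_mono h)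
  intro i _ hi
  rw [mem_range] at hi
  omega

/-- **DEF** -/
theorem t_DEF : St_SPR → St_RES → St_SUP → St_CRD → St_DEF := by
  intro hSPR hRES hSUP hCRD k _ _ e r m D M he hm ha hmD hDm hr hM F0 hF0 F1 hF1 h0 h1
  obtain ⟨q0, hq0, hF0q⟩ := fac hSPR hRES hSUP hCRD he hF0 m ha h0
  obtain ⟨n, rfl⟩ : ∃ n, m = n + 1 := ⟨m - 1, by omega⟩
  have e1 : n + 1 - 1 = n := by omega
  rw [e1] at hr
  have hsm : (n + 1) * e = n * e + e := Nat.succ_mul n e
  obtain ⟨G, hG, hFG⟩ := fac (r := r) (m := n + 1) hSPR hRES hSUP hCRD he hF1 n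
    (fun i hi => ha i (by omega)) (fun j hj => by
      have h2 := h1 j (by omega)
      rw [hF0q, coeff_fac_lt _ (by omega : j + 1 < n + 1), mul_zero, add_zero] at h2
      exact h2)
  have h2 := h1 n (by omega)
  rw [hF0q, hFG, coeff_fac, coeff_fac] at h2
  have e2 : r * (n + 1 - n) = r := by
    rw [Nat.add_sub_cancel_left, mul_one]
  rw [e2] at h2
  -- the supports
  have hsG := hSUP k e _ he G hG
  have hsq := hSUP k e _ he q0 hq0
  have hcq : ∀ i, ((((n + 1 : ℕ) : k[X]) * X ^ M * q0.eval (X ^ e)).coeff (i + M) =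
      ((n + 1 : ℕ) : k) * (q0.eval (X ^ e)).coeff i) := by
    intro i
    rw [mul_assoc, ← C_eq_natCast, coeff_C_mul, coeff_X_pow_mul]
  have hsub : (((n + 1 : ℕ) : k[X]) * X ^ M * q0.eval (X ^ e)).support ⊆
      (q0.eval (X ^ e)).support.image (fun i => i + M) := by
    intro i hi
    rw [mem_support_iff] at hi
    rw [mem_image]
    by_cases hiM : i < M
    · exfalso
      apply hi
      rw [mul_assoc, ← C_eq_natCast, coeff_C_mul, coeff_X_pow_mul', if_neg (by omega), mul_zero]
    · refine ⟨i - M, ?_, by omega⟩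
      rw [mem_support_iff]
      intro h3
      apply hi
      have h4 := hcq (i - M)
      rw [h3, mul_zero, Nat.sub_add_cancel (by omega)] at h4
      exact h4
  have hcard : (G.eval (X ^ e) + ((n + 1 : ℕ) : k[X]) * X ^ M * q0.eval (X ^ e)).support.card ≤ r := by
    have c1 : (G.eval (X ^ e)).support.card ≤ aa e (D - n * e) :=
      (card_le_card hsG).trans (hCRD.1 e _)
    have c2 : (((n + 1 : ℕ) : k[X]) * X ^ M * q0.eval (X ^ e)).support.card ≤
        aa e (D - (n + 1) * e) :=
      (card_le_card hsub).trans (card_image_le.trans ((card_le_card hsq).trans (hCRD.1 e _)))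
    have c3 := (card_le_card (support_add (p := G.eval (X ^ e))
      (q := ((n + 1 : ℕ) : k[X]) * X ^ M * q0.eval (X ^ e)))).trans (card_union_le _ _)
    have c4 := hCRD.2.2.2.2.2.2 e (D - n * e) (by omega)
    have c5 : D - (n + 1) * e = D - n * e - e := by omega
    have c6 := hCRD.2.2.2.2.2.2 (D - n * e - e) (D - n * e - e) le_rfl
    have c7 : aa e (D - n * e - e) = aa (D - n * e - e) (D - n * e - e) := aa_small (by omega)
    rw [Nat.sub_self, zero_mul, add_zero] at c6
    rw [c5, c7] at c2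
    omega
  have h3 := hSPR k _ _ h2 hcard
  -- the second part vanishes
  have hq00 : q0.eval (X ^ e) = 0 := by
    ext i
    rw [coeff_zero]
    have h4 : (G.eval (X ^ e) + ((n + 1 : ℕ) : k[X]) * X ^ M * q0.eval (X ^ e)).coeff (i + M) = 0 := by
      rw [h3, coeff_zero]
    have h5 : (G.eval (X ^ e)).coeff (i + M) = 0 := by
      by_contra h6
      have h7 := hsG (mem_support_iff.2 h6)
      unfold Ex at h7
      rw [mem_image] at h7
      obtain ⟨p, hp, hpe⟩ := h7
      rw [mem_filter, mem_product, mem_range, mem_range] at hp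
      obtain ⟨⟨h8, h9⟩, h10⟩ := hp
      have h11 : e * p.2 ≤ e * D := Nat.mul_le_mul_left _ (by omega)
      omega
    rw [coeff_add, h5, zero_add, hcq] at h4
    rcases mul_eq_zero.1 h4 with h6 | h6
    · exact absurd h6 (by exact_mod_cast Nat.succ_ne_zero n)
    · exact h6
  obtain ⟨q', hq', hqq⟩ := hRES k e _ he q0 hq0 hq00
  have hq'0 : q' = 0 := by
    ext j : 1
    have h4 := mem_V.1 hq' j
    have h5 : D - (n + 1) * e - e - j = 0 := by omega
    rw [h5, mem_degreeLT, Nat.cast_zero] at h4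
    rw [coeff_zero]
    exact degree_eq_bot.1 (Nat.WithBot.lt_zero_iff.1 h4)
  rw [hF0q, hqq, hq'0, mul_zero, mul_zero]

end Pool.Agent.L0h55.FP
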